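import Pool.Agent.H5.BHG.Stmts

/-! # Board bhg, row CDC (after the row SMD of dpg, helper25) -/

set_option autoImplicit false

namespace Pool.BHG

open Filter TMLib Pool.PG Pool.DPG

theorem cdc_thm (h1 : YSBStmt) (h2 : BYYStmt) : CDCStmt := by
  intro S C g X q B hS hX hq hne hB hDm hBq hf
  have hYs : Sub g (yy g X q) := (h1 g X q hX).1
  have hBY := h2 g X q B hX.1 hDm hBq
  obtain ⟨_, σ, hσ⟩ := hS _ hYs hne
  have hlab := dmw_thm ℕ (own g) (pri g) (fun v w => w ∈ suc g v) _ B q.1 _ σ hBY hσ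
  obtain ⟨v, hv⟩ := hB
  have hvY : v ∈ fs g (yy g X q) := hBY.1 hv
  have hv3 := hlab v hv
  unfold fs at hvY
  rw [Finset.mem_filter, Finset.mem_range] at hvY
  have hcnd : ((cd S g X q).any fun b => b) = true := by
    unfold cd
    rw [if_neg hne]
    unfold msk
    rw [List.any_map, List.any_eq_true]
    refine ⟨v, List.mem_range.2 hvY.1, ?_⟩
    show ((yy g X q).getD v false && ((S g (yy g X q)).getD v false == q.1)) = true
    rw [hvY.2, Bool.true_and, beq_iff_eq]
    exact hv3
  have hmem : (q.1, cd S g X q) ∈ fd S C g X := by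
    unfold fd
    rw [List.mem_filter]
    exact ⟨List.mem_map.2 ⟨q, hq, rfl⟩, hcnd⟩
  rw [hf] at hmem
  exact List.not_mem_nil hmem

end Pool.BHG
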